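import Pool.Agent.Helper89.GW.Stmts

/-!
# Module COI: coincidences of the charts
-/

set_option autoImplicit false

open scoped ContDiff Topology
open Set Filter

namespace GW

theorem coi_nd_lt {e : El} {x : ℝ} (h : e.mem x) (m : ℤ) (hx : x < m - 1 / 4) :
    ∀ c ∈ e.nd, c ≤ m := by
  intro c hc
  cases e with
  | near a =>
    have h1 : |x - a| < 1 / 4 := h
    rw [abs_lt] at h1
    have h2 : (a : ℝ) < m := by linarith [h1.1]
    have h3 : a < m := by exact_mod_cast h2
    simp only [El.nd, List.mem_cons, List.not_mem_nil, or_false] at hc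
    omega
  | cell a =>
    have h1 : (a : ℝ) + 1 / 4 ≤ x ∧ x ≤ (a : ℝ) + 3 / 4 := h
    have h2 : (a : ℝ) < m := by linarith [h1.1]
    have h3 : a < m := by exact_mod_cast h2
    simp only [El.nd, List.mem_cons, List.not_mem_nil, or_false] at hc
    omega

theorem coi_nd_gt {e : El} {x : ℝ} (h : e.mem x) (m : ℤ) (hx : (m : ℝ) + 1 / 4 < x) :
    ∀ c ∈ e.nd, m ≤ c := by
  intro c hc
  cases e with
  | near a =>
    have h1 : |x - a| < 1 / 4 := h
    rw [abs_lt] at h1
    have h2 : (m : ℝ) < a := by linarith [h1.2]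
    have h3 : m < a := by exact_mod_cast h2
    simp only [El.nd, List.mem_cons, List.not_mem_nil, or_false] at hc
    omega
  | cell a =>
    have h1 : (a : ℝ) + 1 / 4 ≤ x ∧ x ≤ (a : ℝ) + 3 / 4 := h
    have h2 : (m : ℝ) < a + 1 := by linarith [h1.2]
    have h3 : m < a + 1 := by exact_mod_cast h2
    simp only [El.nd, List.mem_cons, List.not_mem_nil, or_false] at hc
    omega

theorem coi_sp_zero : sp (fun _ _ => 0) = fun _ => 0 := by
  funext p
  simp [sp, Sp]

theorem coi_sp_neg (z : ℤ → ℤ → ℤ) (p : ℝ × ℝ) : sp (fun c k => -z c k) p = -sp z p := by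
  simp only [sp, Sp, Int.cast_neg, neg_mul, Finset.sum_neg_distrib]

theorem coi_supI_zero : SupI (fun _ _ => 0) := fun _ _ h => absurd rfl h

theorem coi_dX_add {f g : ℝ × ℝ → ℝ} (hf : ContDiff ℝ ∞ f) (hg : ContDiff ℝ ∞ g) (z : ℝ × ℝ) :
    dX (fun z => f z + g z) z = dX f z + dX g z := by
  unfold dX
  rw [fderiv_fun_add (hf.differentiable (by simp) z) (hg.differentiable (by simp) z)]
  rfl

theorem coi_dT_add {f g : ℝ × ℝ → ℝ} (hf : ContDiff ℝ ∞ f) (hg : ContDiff ℝ ∞ g) (z : ℝ × ℝ) :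
    dT (fun z => f z + g z) z = dT f z + dT g z := by
  unfold dT
  rw [fderiv_fun_add (hf.differentiable (by simp) z) (hg.differentiable (by simp) z)]
  rfl

theorem coi_dX_smul {f : ℝ × ℝ → ℝ} (hf : ContDiff ℝ ∞ f) (a : ℝ) (z : ℝ × ℝ) :
    dX (fun z => a * f z) z = a * dX f z := by
  unfold dX
  rw [fderiv_const_mul (hf.differentiable (by simp) z)]
  rfl

theorem coi_dT_smul {f : ℝ × ℝ → ℝ} (hf : ContDiff ℝ ∞ f) (a : ℝ) (z : ℝ × ℝ) :
    dT (fun z => a * f z) z = a * dT f z := by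
  unfold dT
  rw [fderiv_const_mul (hf.differentiable (by simp) z)]
  rfl

theorem coi_dX_zero (z : ℝ × ℝ) : dX (fun _ => (0 : ℝ)) z = 0 := by
  simp [dX]

theorem coi_dT_zero (z : ℝ × ℝ) : dT (fun _ => (0 : ℝ)) z = 0 := by
  simp [dT]

theorem coi_same_of_eventuallyEq {f g : ℝ × ℝ → ℝ} {z : ℝ × ℝ} (h : f =ᶠ[𝓝 z] g) :
    Same f g z := by
  refine ⟨h.eq_of_nhds, ?_, ?_⟩
  · unfold dX; rw [h.fderiv_eq]
  · unfold dT; rw [h.fderiv_eq]

theorem coi_isOpen_O3 : IsOpen {z | O3 z} := by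
  have h1 : IsOpen {z : ℝ × ℝ | 13 / 4 < z.1} := isOpen_lt continuous_const continuous_fst
  have h2 : IsOpen {z : ℝ × ℝ | z.1 < 31 / 4} := isOpen_lt continuous_fst continuous_const
  have h3 : IsOpen {z : ℝ × ℝ | 33 / 4 < z.2} := isOpen_lt continuous_const continuous_snd
  have h4 : IsOpen {z : ℝ × ℝ | z.2 < 63 / 4} := isOpen_lt continuous_snd continuous_const
  exact h1.inter (h2.inter (h3.inter h4))

/-! ### the finite check -/

theorem coi_full_cc : ∀ c ∈ Finset.Icc (3 : ℤ) 7, ∀ k ∈ Finset.Icc (8 : ℤ) 15,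
    (c = 3 ∨ c = 7 ∨ k = 8 ∨ k = 15) →
    full (fun c k => pI c k + 0 * bI c k - 1 * qI c k) (El.cell c) (El.cell k) = true := by
  decide +kernel

theorem coi_full_nc : ∀ c ∈ Finset.Icc (4 : ℤ) 7, ∀ k ∈ Finset.Icc (8 : ℤ) 15,
    (k = 8 ∨ k = 15) →
    full (fun c k => pI c k + 0 * bI c k - 1 * qI c k) (El.near c) (El.cell k) = true := by
  decide +kernel

theorem coi_full_cn : ∀ c ∈ Finset.Icc (3 : ℤ) 7, ∀ k ∈ Finset.Icc (9 : ℤ) 15,
    (c = 3 ∨ c = 7) →
    full (fun c k => pI c k + 0 * bI c k - 1 * qI c k) (El.cell c) (El.near k) = true := by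
  decide +kernel

theorem coi_full {X T : El} {x t : ℝ} (hX : X.mem x) (hT : T.mem t) (h : O3 (x, t))
    (h2 : O2 (x, t)) :
    full (fun c k => pI c k + 0 * bI c k - 1 * qI c k) X T = true := by
  obtain ⟨a1, a2, a3, a4⟩ := h
  obtain ⟨b1, b2, b3⟩ := h2
  simp only at a1 a2 a3 a4 b1 b2 b3
  have hb : x < 15 / 4 ∨ 29 / 4 < x ∨ t < 35 / 4 ∨ 61 / 4 < t := by
    by_contra hcon
    push Not at hcon
    exact b3 ⟨hcon.1, hcon.2.1, hcon.2.2.1, hcon.2.2.2⟩
  cases X with
  | near c =>
    have h1 : |x - c| < 1 / 4 := hX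
    rw [abs_lt] at h1
    have c1 : (3 : ℝ) < c := by linarith [h1.2]
    have c2 : (c : ℝ) < 8 := by linarith [h1.1]
    have c3 : (3 : ℤ) < c := by exact_mod_cast c1
    have c4 : c < (8 : ℤ) := by exact_mod_cast c2
    have c5 : (4 : ℝ) ≤ c := by exact_mod_cast (by omega : (4 : ℤ) ≤ c)
    have c6 : (c : ℝ) ≤ 7 := by exact_mod_cast (by omega : c ≤ (7 : ℤ))
    cases T with
    | near k =>
      exfalso
      have h3 : |t - k| < 1 / 4 := hT
      rw [abs_lt] at h3
      have k1 : (8 : ℝ) < k := by linarith [h3.2]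
      have k2 : (k : ℝ) < 16 := by linarith [h3.1]
      have k3 : (8 : ℤ) < k := by exact_mod_cast k1
      have k4 : k < (16 : ℤ) := by exact_mod_cast k2
      have k5 : (9 : ℝ) ≤ k := by exact_mod_cast (by omega : (9 : ℤ) ≤ k)
      have k6 : (k : ℝ) ≤ 15 := by exact_mod_cast (by omega : k ≤ (15 : ℤ))
      rcases hb with hb | hb | hb | hb <;> linarith [h1.1, h1.2, h3.1, h3.2]
    | cell k =>
      have h3 : (k : ℝ) + 1 / 4 ≤ t ∧ t ≤ (k : ℝ) + 3 / 4 := hT
      have k1 : (7 : ℝ) < k := by linarith [h3.2]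
      have k2 : (k : ℝ) < 16 := by linarith [h3.1]
      have k3 : (7 : ℤ) < k := by exact_mod_cast k1
      have k4 : k < (16 : ℤ) := by exact_mod_cast k2
      refine coi_full_nc c (Finset.mem_Icc.2 ⟨by omega, by omega⟩) k
        (Finset.mem_Icc.2 ⟨by omega, by omega⟩) ?_
      rcases hb with hb | hb | hb | hb
      · exfalso; linarith [h1.1, h1.2]
      · exfalso; linarith [h1.1, h1.2]
      · left
        have : (k : ℝ) < 9 := by linarith [h3.1]
        have : k < (9 : ℤ) := by exact_mod_cast this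
        omega
      · right
        have : (14 : ℝ) < k := by linarith [h3.2]
        have : (14 : ℤ) < k := by exact_mod_cast this
        omega
  | cell c =>
    have h1 : (c : ℝ) + 1 / 4 ≤ x ∧ x ≤ (c : ℝ) + 3 / 4 := hX
    have c1 : (2 : ℝ) < c := by linarith [h1.2]
    have c2 : (c : ℝ) < 8 := by linarith [h1.1]
    have c3 : (2 : ℤ) < c := by exact_mod_cast c1
    have c4 : c < (8 : ℤ) := by exact_mod_cast c2
    have cl : x < 15 / 4 → c = 3 := by
      intro hx
      have : (c : ℝ) < 4 := by linarith [h1.1]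
      have : c < (4 : ℤ) := by exact_mod_cast this
      omega
    have cr : 29 / 4 < x → c = 7 := by
      intro hx
      have : (6 : ℝ) < c := by linarith [h1.2]
      have : (6 : ℤ) < c := by exact_mod_cast this
      omega
    cases T with
    | near k =>
      have h3 : |t - k| < 1 / 4 := hT
      rw [abs_lt] at h3
      have k1 : (8 : ℝ) < k := by linarith [h3.2]
      have k2 : (k : ℝ) < 16 := by linarith [h3.1]
      have k3 : (8 : ℤ) < k := by exact_mod_cast k1
      have k4 : k < (16 : ℤ) := by exact_mod_cast k2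
      have k5 : (9 : ℝ) ≤ k := by exact_mod_cast (by omega : (9 : ℤ) ≤ k)
      have k6 : (k : ℝ) ≤ 15 := by exact_mod_cast (by omega : k ≤ (15 : ℤ))
      refine coi_full_cn c (Finset.mem_Icc.2 ⟨by omega, by omega⟩) k
        (Finset.mem_Icc.2 ⟨by omega, by omega⟩) ?_
      rcases hb with hb | hb | hb | hb
      · exact Or.inl (cl hb)
      · exact Or.inr (cr hb)
      · exfalso; linarith [h3.1, h3.2]
      · exfalso; linarith [h3.1, h3.2]
    | cell k =>
      have h3 : (k : ℝ) + 1 / 4 ≤ t ∧ t ≤ (k : ℝ) + 3 / 4 := hT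
      have k1 : (7 : ℝ) < k := by linarith [h3.2]
      have k2 : (k : ℝ) < 16 := by linarith [h3.1]
      have k3 : (7 : ℤ) < k := by exact_mod_cast k1
      have k4 : k < (16 : ℤ) := by exact_mod_cast k2
      refine coi_full_cc c (Finset.mem_Icc.2 ⟨by omega, by omega⟩) k
        (Finset.mem_Icc.2 ⟨by omega, by omega⟩) ?_
      rcases hb with hb | hb | hb | hb
      · exact Or.inl (cl hb)
      · exact Or.inr (Or.inl (cr hb))
      · right; right; left
        have : (k : ℝ) < 9 := by linarith [h3.1]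
        have : k < (9 : ℤ) := by exact_mod_cast this
        omega
      · right; right; right
        have : (14 : ℝ) < k := by linarith [h3.2]
        have : (14 : ℤ) < k := by exact_mod_cast this
        omega

/-- position of the active nodes over `O3 ∩ O2` -/
theorem coi_pos {X T : El} {x t : ℝ} (hX : X.mem x) (hT : T.mem t)
    (h2 : x < 15 / 4 ∨ 29 / 4 < x ∨ t < 35 / 4 ∨ 61 / 4 < t) :
    ∀ c ∈ X.nd, ∀ k ∈ T.nd, c ≤ 4 ∨ 7 ≤ c ∨ k ≤ 9 ∨ 15 ≤ k := by
  intro c hc k hk
  rcases h2 with h | h | h | h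
  · left
    exact coi_nd_lt hX 4 (by push_cast; linarith) c hc
  · right; left
    exact coi_nd_gt hX 7 (by push_cast; linarith) c hc
  · right; right; left
    exact coi_nd_lt hT 9 (by push_cast; linarith) k hk
  · right; right; right
    exact coi_nd_gt hT 15 (by push_cast; linarith) k hk

theorem st_COI (hDAT : ST_DAT) (hSLOC : ST_SLOC) (hSIGN : ST_SIGN) (hSLIN : ST_SLIN)
    (hELEM : ST_ELEM) (hSPD : ST_SPD) : ST_COI := by
  obtain ⟨⟨sA, sA', sB, sM, sP, sQ, sX⟩, -, ⟨-, -, -, hpq⟩, ⟨hl, hr⟩, hA', hO3, hO23⟩ := hDAT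
  have key : ∀ z z' : ℤ → ℤ → ℤ, SupI z → SupI z' → ∀ (X T : El) (x t : ℝ), X.mem x → T.mem t →
      (∀ c ∈ X.nd, ∀ k ∈ T.nd, z c k = z' c k) → Same (sp z) (sp z') (x, t) :=
    fun z z' h h' X T x t hX hT hh => hSLOC z z' X T x t h h' hX hT hh
  -- the function `sp xI` is `1` over `O3`
  have hx1 : ∀ z, O3 z → sp xI z = 1 := by
    rintro ⟨x, t⟩ ⟨a1, a2, a3, a4⟩
    simp only at a1 a2 a3 a4
    obtain ⟨X, hX⟩ := hELEM.1 x
    obtain ⟨T, hT⟩ := hELEM.1 t
    have e1 : ∀ c ∈ X.nd, ∀ k ∈ T.nd, xI c k = 1 := fun c hc k hk =>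
      (hO3 c k (coi_nd_gt hX 3 (by push_cast; linarith) c hc)
        (coi_nd_lt hX 8 (by push_cast; linarith) c hc)
        (coi_nd_gt hT 8 (by push_cast; linarith) k hk)
        (coi_nd_lt hT 16 (by push_cast; linarith) k hk)).1
    have h1 := (hSIGN xI X T x t sX hX hT).2.2.2.2.2.2 1
      (fun c hc k hk => le_of_eq (e1 c hc k hk).symm) (by linarith) (by linarith)
      (by linarith) (by linarith)
    have h2 := (hSIGN (fun c k => -xI c k) X T x t
      (fun c k h => sX c k (fun h' => h (by simp [h']))) hX hT).2.2.2.2.2.2 (-1)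
      (fun c hc k hk => le_of_eq (by rw [e1 c hc k hk])) (by linarith) (by linarith)
      (by linarith) (by linarith)
    rw [coi_sp_neg] at h2
    push_cast at h1 h2
    linarith
  constructor
  · rintro ⟨x, t⟩ ht
    simp only at ht
    obtain ⟨X, hX⟩ := hELEM.1 x
    obtain ⟨T, hT, hTn⟩ : ∃ T : El, T.mem t ∧
        ∀ k ∈ T.nd, 3 ≤ k ∧ k ≤ 21 ∧ (k ≤ 4 ∨ 20 ≤ k) := by
      rcases ht with ht | ht
      · refine ⟨El.cell 3, ⟨by push_cast; linarith [ht.1], by push_cast; linarith [ht.2]⟩, ?_⟩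
        intro k hk
        simp only [El.nd, List.mem_cons, List.not_mem_nil, or_false] at hk
        omega
      · refine ⟨El.cell 20, ⟨by push_cast; linarith [ht.1], by push_cast; linarith [ht.2]⟩, ?_⟩
        intro k hk
        simp only [El.nd, List.mem_cons, List.not_mem_nil, or_false] at hk
        omega
    constructor
    · intro hx
      simp only at hx
      have hc : ∀ c ∈ X.nd, c ≤ -2 := coi_nd_lt hX (-2) (by push_cast; linarith)
      have e : ∀ c ∈ X.nd, ∀ k ∈ T.nd, aI c k = bI c k ∧ aI' c k = 0 ∧ mI c k = 0 ∧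
          xI c k = 0 := fun c hc' k hk' =>
        hl c k (hc c hc') (hTn k hk').1 (hTn k hk').2.1 (hTn k hk').2.2
      refine ⟨?_, ?_, ?_⟩
      · exact key aI bI sA sB X T x t hX hT fun c hc k hk => (e c hc k hk).1
      · have := key aI' (fun _ _ => 0) sA' coi_supI_zero X T x t hX hT
          fun c hc k hk => (e c hc k hk).2.1
        rw [coi_sp_zero] at this
        exact this
      · have h1 := key mI (fun _ _ => 0) sM coi_supI_zero X T x t hX hT
          fun c hc k hk => (e c hc k hk).2.2.1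
        have h2 := key xI (fun _ _ => 0) sX coi_supI_zero X T x t hX hT
          fun c hc k hk => (e c hc k hk).2.2.2
        rw [coi_sp_zero] at h1 h2
        obtain ⟨p1, p2, p3⟩ := h1
        obtain ⟨q1, q2, q3⟩ := h2
        rw [coi_dX_zero] at p2 q2
        rw [coi_dT_zero] at p3 q3
        have d1 : ContDiff ℝ ∞ (sp mI) := (hSPD mI sM).1
        have d2 : ContDiff ℝ ∞ (sp xI) := (hSPD xI sX).1
        refine ⟨?_, ?_, ?_⟩
        · change sp mI (x, t) + 2 * kk * sp xI (x, t) = 0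
          rw [p1, q1]; ring
        · rw [coi_dX_zero]
          have := coi_dX_add d1 (contDiff_const.mul d2 : ContDiff ℝ ∞ fun z => 2 * kk * sp xI z)
            (x, t)
          rw [coi_dX_smul d2, p2, q2] at this
          change dX (fun z => sp mI z + 2 * kk * sp xI z) (x, t) = 0
          rw [this]; ring
        · rw [coi_dT_zero]
          have := coi_dT_add d1 (contDiff_const.mul d2 : ContDiff ℝ ∞ fun z => 2 * kk * sp xI z)
            (x, t)
          rw [coi_dT_smul d2, p3, q3] at this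
          change dT (fun z => sp mI z + 2 * kk * sp xI z) (x, t) = 0
          rw [this]; ring
    · intro hx
      simp only at hx
      have hc : ∀ c ∈ X.nd, -3 ≤ c := coi_nd_gt hX (-3) (by push_cast; linarith)
      have e : ∀ c ∈ X.nd, ∀ k ∈ T.nd, aI c k = aI' c k ∧ bI c k = 0 := fun c hc' k hk' =>
        hr c k (hc c hc') (hTn k hk').1 (hTn k hk').2.1 (hTn k hk').2.2
      refine ⟨?_, ?_⟩
      · exact key aI aI' sA sA' X T x t hX hT fun c hc k hk => (e c hc k hk).1
      · have := key bI (fun _ _ => 0) sB coi_supI_zero X T x t hX hT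
          fun c hc k hk => (e c hc k hk).2
        rw [coi_sp_zero] at this
        exact this
  · rintro ⟨x, t⟩ hz
    have hz' := hz
    obtain ⟨a1, a2, a3, a4⟩ := hz'
    simp only at a1 a2 a3 a4
    obtain ⟨X, hX⟩ := hELEM.1 x
    obtain ⟨T, hT⟩ := hELEM.1 t
    have cX : ∀ c ∈ X.nd, 3 ≤ c ∧ c ≤ 8 := fun c hc =>
      ⟨coi_nd_gt hX 3 (by push_cast; linarith) c hc, coi_nd_lt hX 8 (by push_cast; linarith) c hc⟩
    have cT : ∀ k ∈ T.nd, 8 ≤ k ∧ k ≤ 16 := fun k hk =>
      ⟨coi_nd_gt hT 8 (by push_cast; linarith) k hk, coi_nd_lt hT 16 (by push_cast; linarith) k hk⟩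
    have e : ∀ c ∈ X.nd, ∀ k ∈ T.nd, xI c k = 1 ∧ 1 ≤ aI c k ∧ 1 ≤ bI c k :=
      fun c hc k hk => hO3 c k (cX c hc).1 (cX c hc).2 (cT k hk).1 (cT k hk).2
    refine ⟨?_, ?_, ?_, ?_, ?_⟩
    · exact key aI aI' sA sA' X T x t hX hT fun c hc k hk => (hA' c k (by linarith [(cX c hc).1])).symm
    · apply coi_same_of_eventuallyEq
      have : ∀ᶠ z in 𝓝 ((x, t) : ℝ × ℝ), O3 z := coi_isOpen_O3.mem_nhds hz
      filter_upwards [this] with z hz
      change sp mI z + 2 * kk * sp xI z = sp mI z + 2 * kk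
      rw [hx1 z hz]; ring
    · have h1 := (hSIGN aI X T x t sA hX hT).2.2.2.2.2.2 1
        (fun c hc k hk => (e c hc k hk).2.1) (by linarith) (by linarith)
        (by linarith) (by linarith)
      push_cast at h1
      change ee ≤ sp aI (x, t)
      unfold ee
      linarith
    · have h1 := (hSIGN bI X T x t sB hX hT).2.2.2.2.2.2 1
        (fun c hc k hk => (e c hc k hk).2.2) (by linarith) (by linarith)
        (by linarith) (by linarith)
      push_cast at h1
      change ee ≤ sp bI (x, t)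
      unfold ee
      linarith
    · intro h2
      have hb : x < 15 / 4 ∨ 29 / 4 < x ∨ t < 35 / 4 ∨ 61 / 4 < t := by
        by_contra hcon
        push Not at hcon
        exact h2.2.2 ⟨hcon.1, hcon.2.1, hcon.2.2.1, hcon.2.2.2⟩
      have e2 : ∀ c ∈ X.nd, ∀ k ∈ T.nd, pI c k = aI c k ∧ qI c k = mI c k + bI c k :=
        fun c hc k hk => hO23 c k (cX c hc).1 (cX c hc).2 (cT k hk).1 (cT k hk).2
          (coi_pos hX hT hb c hc k hk)
      have dm : ContDiff ℝ ∞ (sp mI) := (hSPD mI sM).1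
      have db : ContDiff ℝ ∞ (sp bI) := (hSPD bI sB).1
      refine ⟨?_, ?_, ?_⟩
      · exact key pI aI sP sA X T x t hX hT fun c hc k hk => (e2 c hc k hk).1
      · obtain ⟨s1, s2, s3, s4⟩ := hSLIN mI bI bI 0 1 (x, t) sM sB sB
        obtain ⟨r1, r2, r3⟩ := key qI _ sQ s1 X T x t hX hT fun c hc k hk => by
          rw [(e2 c hc k hk).2]; ring
        refine ⟨?_, ?_, ?_⟩
        · rw [r1, s2]; push_cast; ring
        · rw [r2, s3, coi_dX_add dm db]; push_cast; ring
        · rw [r3, s4, coi_dT_add dm db]; push_cast; ring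
      · obtain ⟨s1, s2, -, -⟩ := hSLIN pI bI qI 1 0 (x, t) sP sB sQ
        have h1 := (hSIGN (fun c k => pI c k + 0 * bI c k - 1 * qI c k) X T x t s1 hX hT).2.2.2.2.2.1
          (fun c hc k hk => by
            have := hpq c k (cX c hc).1 (cX c hc).2 (cT k hk).1 (cT k hk).2
            simp only [zero_mul, add_zero, one_mul]
            linarith) (coi_full hX hT hz h2)
        rw [s2] at h1
        push_cast at h1
        change ee ≤ (sp pI (x, t) - sp qI (x, t)) / 2
        unfold ee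
        linarith

end GW
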